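import Pool.Agent.Q279.TS.R7

set_option autoImplicit false

open MeasureTheory Q61.Sob Q61.QGrad
open scoped ContDiff

namespace Pool.Agent.Results.MP_6d3bed_an.ThreeSolutionsBelowGamma1

/-- the annulus of the plane with radii `exp (-1)` and `exp 1` -/
def Ann : Set (En 2) := {x | Real.exp (-1) < ‖x‖ ∧ ‖x‖ < Real.exp 1}

/-- `f` is not almost everywhere zero on the annulus -/
def NonZero (f : En 2 → ℝ) : Prop := ¬ ∀ᵐ x ∂(volume.restrict Ann), f x = 0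

/-- assumption (A) for `c`, `μ`, `h`, with smooth functions, `μ ≥ 1` and `h ≥ 0` -/
def IsData (c μ h : En 2 → ℝ) : Prop :=
  (∀ x ∈ closure Ann, ContDiffAt ℝ ∞ c x ∧ ContDiffAt ℝ ∞ μ x ∧ ContDiffAt ℝ ∞ h x) ∧
  (∀ p : ENNReal, MemLp c p (volume.restrict Ann) ∧ MemLp μ p (volume.restrict Ann) ∧
    MemLp h p (volume.restrict Ann)) ∧
  (∀ x ∈ Ann, 0 ≤ c x ∧ 1 ≤ μ x ∧ 0 ≤ h x) ∧ NonZero c ∧ NonZero h

/-- `γ` is an eigenvalue of `-Δφ = γ c φ`, `φ ∈ H¹₀(Ann)` -/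
def IsEigenvalue (c : En 2 → ℝ) (γ : ℝ) : Prop :=
  ∃ (φ : En 2 → ℝ) (G : En 2 → En 2), IsH10 Ann φ G ∧ NonZero φ ∧
    ∀ (v : En 2 → ℝ) (V : En 2 → En 2), IsH10 Ann v V →
      ∫ x in Ann, inner ℝ (G x) (V x) = γ * ∫ x in Ann, c x * φ x * v x

/-- Negative answer to Q1 and Q2. On the annulus there are `C^∞` data `c ≥ 0`, `μ ≥ 1`, `h ≥ 0` with `h` not
a.e. zero, a solution `u₀ ≥ 0` of `(P_0)` with `c u₀` not a.e. zero, `γ₁ ≥ 2`, and three different solutions of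
`(P_1)`. -/
theorem result :
    ∃ c μ h : En 2 → ℝ, IsData c μ h ∧
      (∃ u G, IsSolution Ann 0 c μ h u G ∧ (∀ x ∈ Ann, 0 ≤ u x) ∧ NonZero (fun x => c x * u x)) ∧
      2 ≤ gamma1 Ann c ∧ (∀ γ, IsEigenvalue c γ → 2 ≤ γ) ∧
      ∃ u₁ u₂ u₃ G₁ G₂ G₃, IsSolution Ann 1 c μ h u₁ G₁ ∧ IsSolution Ann 1 c μ h u₂ G₂ ∧
        IsSolution Ann 1 c μ h u₃ G₃ ∧ NonZero (fun x => u₁ x - u₂ x) ∧ NonZero (fun x => u₁ x - u₃ x) ∧
        NonZero (fun x => u₂ x - u₃ x) := by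
  obtain ⟨c, μ, h, u₀, u₁, u₂, u₃, G₀, G₁, G₂, G₃, a1, a2, a3, a4, b1, b2, b3, g1, g2, s1, s2, s3, d1, d2, d3⟩ :=
    Q279.TS.main
  refine ⟨c, μ, h, ⟨a1, a2, a3, fun hc => b3 ?_, a4⟩, ⟨u₀, G₀, b1, b2, b3⟩, g1, ?_,
    u₁, u₂, u₃, G₁, G₂, G₃, s1, s2, s3, ?_, ?_, ?_⟩
  · filter_upwards [hc] with x hx
    rw [hx, zero_mul]
  · rintro γ ⟨φ, G, h1, h2, h3⟩
    exact g2 γ φ G h1 h2 h3
  · intro hz
    apply d1
    filter_upwards [hz] with x hx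
    linarith
  · intro hz
    apply d2
    filter_upwards [hz] with x hx
    linarith
  · intro hz
    apply d3
    filter_upwards [hz] with x hx
    linarith

end Pool.Agent.Results.MP_6d3bed_an.ThreeSolutionsBelowGamma1
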